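import Mathlib
import Pool.Agent.J4.H77.PwDefs
import Pool.Agent.J4.H77.PwMain

set_option autoImplicit false

/-!
# Piecewise conjugate systems whose C*-correspondences are not unitarily equivalent

Q1 of MP_7f766c_an has a negative answer, already for four maps on a compact metrizable space.

The maps. Let `Δ` be the simplex whose vertices are the permutations of four letters and let `Z`
be a convex compact set (the product of `Δ` and of a cube with one coordinate for each pair `(B, B')`
of sets of letters). The maps `σ_l, τ_k : Δ → Z` have `x` as first component, and their `(B, B')`-th
coordinates are `c_{B,B'}(x)` if `l ∈ B` (if `k ∈ B'`, respectively) and `0` otherwise, where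
`c_{B,B'}(x)` is positive if the support of `x` consists of permutations which map `B` onto `B'` and
`0` if some permutation `κ` with `κ B ≠ B'` has `x_κ > 1/48`. So `τ_{κ(l)} = σ_l` on the open set
`x_κ > 1/48`.

Rigidity. The space `X` is the disjoint union of `Δ` and of a space which consists of `Z` and of a
sequence `d_0, d_1, …` of isolated points with small steps and dense tails; on the latter all maps of
both systems are equal to the shift `d_k ↦ d_{k-1}`, the identity on `Z`. A unitary equivalence is
given by a homeomorphism `g` and a continuous unitary matrix function `u`, where `u_{ij}(x) ≠ 0`
only if `σ_j (g x) = g (τ_i x)`; it follows that `g` fixes all `d_k`, all of `Z` and then all of `Δ`.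

Obstruction. So `u` is a continuous function on `Δ` with values in the invertible matrices, and
on the face of the permutations which map `B` onto `B'` it maps the coordinate subspace of `B`
onto that of `B'`. Take continuous logarithms of `det u` on `Δ` and of the entries `u_{i'i}` on the
faces of the permutations with `i ↦ i'`. Their difference `s(κ) = N(κ) π i` at the vertex `κ` has
`(-1)^N(κ) = sgn κ`, and, using logarithms of the squares of the `2 × 2` minors on the tetrahedra
`{κ, κ(ij), κ(kl), κ(ij)(kl)}`, one gets `N(κ) + N(κ(ij)(kl)) = N(κ(ij)) + N(κ(kl))`. Nine of these
equations, which contain each of 18 permutations exactly twice, contradict the parities.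
-/

namespace Pool.Agent.Results.MP_7f766c_an.PiecewiseNotUnitary

open Pool.Agent.J4.H77.Pw

/-- There are a compact metrizable Hausdorff space `X` and two systems of four (proper) continuous
maps on `X` which are piecewise conjugate but whose C*-correspondences are not unitarily
equivalent. -/
theorem result : ∃ (X : Type) (_ : TopologicalSpace X) (_ : T2Space X) (_ : CompactSpace X)
    (_ : TopologicalSpace.MetrizableSpace X) (σ τ : Fin 4 → CocompactMap X X),
    PiecewiseConjugate σ τ ∧ ¬ UnitarilyEquivalent σ τ := main

end Pool.Agent.Results.MP_7f766c_an.PiecewiseNotUnitary
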